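import Pool.Agent.Helper6.EC_B.Goals

/-! Packet CVG of MP_ecc237_nt, Part B: the substitution `t = tt y`. -/

open MeasureTheory Filter Topology Set

noncomputable section

namespace EC237.PB.PkCVG

theorem tt_pos (y : ℝ) : 0 < tt y := by
  unfold tt
  positivity

theorem hasDerivAt_tt (y : ℝ) : HasDerivAt tt (-tt y) y := by
  unfold tt
  have h1 : HasDerivAt (fun y : ℝ => -gam - y) (-1) y := by
    simpa using (hasDerivAt_id y).const_sub (-gam)
  have h2 := (h1.exp).const_mul 2
  refine h2.congr_deriv ?_
  ring

theorem tt_lt {x y : ℝ} (h : x < y) : tt y < tt x := by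
  unfold tt
  have : Real.exp (-gam - y) < Real.exp (-gam - x) := Real.exp_lt_exp.2 (by linarith)
  linarith

theorem tt_injOn (s : Set ℝ) : InjOn tt s := by
  intro x _ y _ h
  rcases lt_trichotomy x y with hl | hl | hl
  · exact absurd h (tt_lt hl).ne'
  · exact hl
  · exact absurd h (tt_lt hl).ne

theorem tt_image (Y : ℝ) : tt '' (Iio Y) = Ioi (tt Y) := by
  ext t
  constructor
  · rintro ⟨y, hy, rfl⟩
    exact tt_lt hy
  · intro ht
    have ht0 : 0 < t := (tt_pos Y).trans ht
    refine ⟨-gam - Real.log (t / 2), ?_, ?_⟩
    · have h1 : Real.exp (-gam - Y) < t / 2 := by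
        have : tt Y < t := ht
        unfold tt at this
        linarith
      have h2 : -gam - Y < Real.log (t / 2) := (Real.lt_log_iff_exp_lt (by positivity)).2 h1
      change -gam - Real.log (t / 2) < Y
      linarith
    · unfold tt
      rw [show -gam - (-gam - Real.log (t / 2)) = Real.log (t / 2) by ring,
        Real.exp_log (by positivity)]
      ring

theorem thm : G_CVG := by
  intro F Y
  rw [← tt_image Y, integral_image_eq_integral_abs_deriv_smul measurableSet_Iio
    (fun y _ => (hasDerivAt_tt y).hasDerivWithinAt) (tt_injOn _) (fun t => F t / t),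
    integral_Iic_eq_integral_Iio]
  refine integral_congr_ae (ae_of_all _ fun y => ?_)
  dsimp only
  have h := tt_pos y
  rw [abs_neg, abs_of_pos h, smul_eq_mul]
  field_simp

end EC237.PB.PkCVG
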